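import Mathlib
import Pool.Agent.W890.SF.All
import Pool.Agent.W890.SF.R2

/-!
# The Erdős matching conjecture for `n ≥ (k + 39/40) s`, `n` large

For every `k ≥ 2` there is `n0(k)` such that the Erdős matching conjecture holds for all `n ≥ n0(k)`
and all `s` with `n ≥ (k + 39/40) s`, in particular for `n ≥ (k + 1) s`.

The hard work is in the starting modules `Pool.Agent.W890.SF` and those it imports (Samuels'
inequality in the range `(20 r + 19) x ≤ 20`, and its stability); this integral form had not been
handed in.
-/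

set_option autoImplicit false

namespace Pool.Agent.Results.MP_9079fe_co.ExactBeyondKPlusOne

open Finset

/-- For every `k ≥ 2` and all sufficiently large `n`, the equality
`e_k(n,s) = max (C(n,k) - C(n-s,k)) (C(k(s+1)-1,k))` holds for all `s` with `n ≥ (k + 39/40) s`; in
this range `k (s+1) ≤ n` and the first number is the maximum. -/
theorem result (k : ℕ) (hk : 2 ≤ k) :
    ∃ n0 : ℕ, ∀ n : ℕ, n0 ≤ n → ∀ s : ℕ, (40 * k + 39) * s ≤ 40 * n →
      IsGreatest
        {m : ℕ | ∃ F : Finset (Finset (Fin n)),
          (∀ A ∈ F, A.card = k) ∧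
          (∀ M ⊆ F, (M : Set (Finset (Fin n))).PairwiseDisjoint id → M.card ≤ s) ∧
          F.card = m}
        (max (n.choose k - (n - s).choose k) ((k * (s + 1) - 1).choose k)) ∧
      (k * (s + 1) - 1).choose k ≤ n.choose k - (n - s).choose k ∧ k * (s + 1) ≤ n :=
  Pool.Agent.W890.SF.R2.greatest Pool.Agent.W890.SF.t_EMC Pool.Agent.W890.SF.t_LOW k hk

end Pool.Agent.Results.MP_9079fe_co.ExactBeyondKPlusOne
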